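import Pool.Agent.Y862.SQ.Stm

set_option autoImplicit false

/-!
# The collision factor on average
-/

namespace Pool.Agent.Y606.SQ

open Finset Pool.Agent.Y862.SQ

theorem exp_aux {x : ℝ} : Real.exp x - 1 ≤ x * Real.exp x := by
  have h := Real.add_one_le_exp (-x)
  have h1 : Real.exp x * (-x + 1) ≤ Real.exp x * Real.exp (-x) :=
    mul_le_mul_of_nonneg_left h (Real.exp_pos x).le
  rw [← Real.exp_add, add_neg_cancel, Real.exp_zero] at h1
  linarith

theorem t_COLL : S_COLL := by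
  intro K
  have hK0 : (0 : ℝ) ≤ K := Nat.cast_nonneg K
  refine ⟨K * Real.exp K + 1, by positivity, fun w T hw => ?_⟩
  have hw0 : (0 : ℝ) < w := by exact_mod_cast hw
  set Q := (Icc 1 T).filter (fun p => p.Prime ∧ w < p) with hQ
  -- expansion
  have h1 : ∀ t ∈ Icc 1 T, Dd K w t = ∑ U ∈ Q.powerset,
      if (∀ p ∈ U, p ∣ t) then ∏ p ∈ U, (K : ℝ) / p else 0 := by
    intro t ht
    rw [mem_Icc] at ht
    have e : t.primeFactors.filter (fun p => w < p) = Q.filter (fun p => p ∣ t) := by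
      ext p
      rw [mem_filter, Nat.mem_primeFactors, hQ, mem_filter, mem_filter, mem_Icc]
      constructor
      · rintro ⟨⟨hp, hpt, ht0⟩, hwp⟩
        exact ⟨⟨⟨hp.one_le, (Nat.le_of_dvd (by omega) hpt).trans ht.2⟩, hp, hwp⟩, hpt⟩
      · rintro ⟨⟨_, hp, hwp⟩, hpt⟩
        exact ⟨⟨hp, hpt, by omega⟩, hwp⟩
    unfold Dd
    rw [e, prod_filter]
    have e2 : ∀ p ∈ Q, (if p ∣ t then 1 + (K : ℝ) / p else 1) =
        1 + if p ∣ t then (K : ℝ) / p else 0 := by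
      intro p _
      split_ifs
      · rfl
      · rw [add_zero]
    rw [prod_congr rfl e2, prod_one_add]
    apply sum_congr rfl
    intro U _
    rw [prod_ite_zero]
  -- the number of multiples
  have h2 : ∀ U ∈ Q.powerset, ∑ t ∈ Icc 1 T, (if (∀ p ∈ U, p ∣ t) then
      ∏ p ∈ U, (K : ℝ) / p else 0) ≤ T * ∏ p ∈ U, (K : ℝ) / (p : ℝ) ^ 2 := by
    intro U hU
    rw [mem_powerset] at hU
    rw [← sum_filter, sum_const, nsmul_eq_mul]
    have hpr : ∀ p ∈ U, p.Prime := fun p hp => (mem_filter.1 (hU hp)).2.1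
    have h3 : ((Icc 1 T).filter (fun t => ∀ p ∈ U, p ∣ t)).card ≤ T / ∏ p ∈ U, p := by
      rw [← Nat.Ioc_filter_dvd_card_eq_div]
      apply card_le_card
      intro t ht
      rw [mem_filter, mem_Icc] at ht
      rw [mem_filter, mem_Ioc]
      refine ⟨⟨by omega, ht.1.2⟩, ?_⟩
      exact prod_primes_dvd t (fun p hp => (hpr p hp).prime) ht.2
    have h4 : (((Icc 1 T).filter (fun t => ∀ p ∈ U, p ∣ t)).card : ℝ) ≤
        T / ∏ p ∈ U, (p : ℝ) := by
      calc (((Icc 1 T).filter (fun t => ∀ p ∈ U, p ∣ t)).card : ℝ) ≤ ((T / ∏ p ∈ U, p : ℕ) : ℝ) := by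
            exact_mod_cast h3
        _ ≤ (T : ℝ) / ((∏ p ∈ U, p : ℕ) : ℝ) := Nat.cast_div_le
        _ = _ := by rw [Nat.cast_prod]
    have h5 : 0 ≤ ∏ p ∈ U, (K : ℝ) / p := prod_nonneg fun p _ => by positivity
    calc (((Icc 1 T).filter (fun t => ∀ p ∈ U, p ∣ t)).card : ℝ) * ∏ p ∈ U, (K : ℝ) / p
        ≤ (T / ∏ p ∈ U, (p : ℝ)) * ∏ p ∈ U, (K : ℝ) / p := mul_le_mul_of_nonneg_right h4 h5
      _ = T * ∏ p ∈ U, (K : ℝ) / (p : ℝ) ^ 2 := by
          rw [div_mul_eq_mul_div, mul_div_assoc, ← prod_div_distrib]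
          congr 1
          apply prod_congr rfl
          intro p _
          rw [div_div, ← pow_two]
  have h6 : ∑ t ∈ Icc 1 T, Dd K w t ≤ T * ∏ p ∈ Q, (1 + (K : ℝ) / (p : ℝ) ^ 2) := by
    rw [sum_congr rfl h1, sum_comm, prod_one_add, mul_sum]
    exact sum_le_sum h2
  -- the product
  have h7 : ∑ p ∈ Q, (K : ℝ) / (p : ℝ) ^ 2 ≤ K / w := by
    have hsub : Q ⊆ Ioc w T := by
      intro p hp
      rw [hQ, mem_filter, mem_Icc] at hp
      rw [mem_Ioc]
      exact ⟨hp.2.2, hp.1.2⟩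
    have h8 : ∑ p ∈ Ioc w T, ((p : ℝ) ^ 2)⁻¹ ≤ (w : ℝ)⁻¹ := by
      rcases le_total w T with h | h
      · have h9 := sum_Ioc_inv_sq_le_sub (α := ℝ) (show w ≠ 0 by omega) h
        have h10 : (0 : ℝ) ≤ (T : ℝ)⁻¹ := by positivity
        linarith
      · rw [Ioc_eq_empty_of_le h, sum_empty]
        positivity
    calc ∑ p ∈ Q, (K : ℝ) / (p : ℝ) ^ 2 ≤ ∑ p ∈ Ioc w T, (K : ℝ) / (p : ℝ) ^ 2 :=
          sum_le_sum_of_subset_of_nonneg hsub fun p _ _ => by positivity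
      _ = K * ∑ p ∈ Ioc w T, ((p : ℝ) ^ 2)⁻¹ := by
          rw [mul_sum]
          apply sum_congr rfl
          intro p _
          rw [div_eq_mul_inv]
      _ ≤ K * (w : ℝ)⁻¹ := mul_le_mul_of_nonneg_left h8 hK0
      _ = K / w := by rw [div_eq_mul_inv]
  have h11 : ∏ p ∈ Q, (1 + (K : ℝ) / (p : ℝ) ^ 2) ≤ Real.exp (K / w) := by
    calc ∏ p ∈ Q, (1 + (K : ℝ) / (p : ℝ) ^ 2) ≤ ∏ p ∈ Q, Real.exp ((K : ℝ) / (p : ℝ) ^ 2) := by
          apply prod_le_prod
          · intro p _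
            positivity
          · intro p _
            rw [add_comm]
            exact Real.add_one_le_exp _
      _ = Real.exp (∑ p ∈ Q, (K : ℝ) / (p : ℝ) ^ 2) := (Real.exp_sum _ _).symm
      _ ≤ _ := Real.exp_le_exp.2 h7
  have h12 : Real.exp (K / w) - 1 ≤ K / w * Real.exp K := by
    refine exp_aux.trans ?_
    apply mul_le_mul_of_nonneg_left _ (by positivity)
    apply Real.exp_le_exp.2
    rw [div_le_iff₀ hw0]
    have : (1 : ℝ) ≤ w := by exact_mod_cast hw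
    nlinarith
  rw [sum_sub_distrib, sum_const, Nat.card_Icc, nsmul_eq_mul, mul_one, Nat.add_sub_cancel]
  have hT0 : (0 : ℝ) ≤ T := Nat.cast_nonneg T
  calc ∑ t ∈ Icc 1 T, Dd K w t - (T : ℝ) ≤ T * Real.exp (K / w) - T := by
        have := mul_le_mul_of_nonneg_left h11 hT0
        linarith
    _ = T * (Real.exp (K / w) - 1) := by ring
    _ ≤ T * (K / w * Real.exp K) := mul_le_mul_of_nonneg_left h12 hT0
    _ = K * Real.exp K * T / w := by ring
    _ ≤ (K * Real.exp K + 1) * T / w := by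
        apply div_le_div_of_nonneg_right _ hw0.le
        nlinarith

end Pool.Agent.Y606.SQ
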